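import Pool.Agent.X20.Tr.Gen
import Pool.Agent.X20.Tr.Fund
import Pool.Agent.X20.Tr.Sgn

/-!
# Non-vanishing of quadratic twists along `⌊α n ^ c⌋`

From Mathlib: `jacobiSym D n`: the Jacobi symbol `(D / n)`, `n` odd; `Squarefree`; `dimH E`: the Hausdorff dimension of
`E`; `⌊x⌋₊`: the integer part; `𝓝`: neighbourhoods; `Finset.Icc`: the integers in a closed interval.
-/

set_option autoImplicit false

namespace Pool.Agent.Results.MP_17f4cb_nt.AlongDilatedPowers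

open Finset Filter Topology
open Pool.Agent.X20.Tr
open Pool.Agent.Y854.PS (ms xs)

/-- `D` is the discriminant of a quadratic field -/
def Fund (D : ℤ) : Prop :=
  D ≠ 1 ∧ ((D % 4 = 1 ∧ Squarefree D) ∨ ∃ k : ℤ, D = 4 * k ∧ (k % 4 = 2 ∨ k % 4 = 3) ∧ Squarefree k)

/-- the series `∑ lam n (D / n) n ^ (-s)` over the odd `n` (the twist by the field of discriminant `D`, without the
Euler factors at the primes dividing `2 D`) continues to an entire function which does not vanish at `1 / 2` -/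
def NonVanishing (lam : ℕ → ℂ) (D : ℤ) : Prop :=
  ∃ F : ℂ → ℂ, Differentiable ℂ F ∧
    (∀ s : ℂ, 2 < s.re → F s = ∑' n : ℕ, if n % 2 = 1 then lam n * (jacobiSym D n : ℂ) * (n : ℂ) ^ (-s) else 0) ∧
    F (1 / 2) ≠ 0

open Classical in
/-- the proportion of the fields with non-vanishing twist among the quadratic fields with `|Δ| ≤ X` -/
noncomputable def ratio (lam : ℕ → ℂ) (X : ℕ) : ℝ :=
  (((Icc (-(X : ℤ)) X).filter (fun D : ℤ => Fund D ∧ NonVanishing lam D)).card : ℝ) /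
    ((Icc (-(X : ℤ)) X).filter (fun D : ℤ => Fund D)).card

open Classical in
/-- the proportion of the non-vanishing twists among the fields of discriminant `± ⌊α n ^ c⌋`, `n ≤ N` -/
noncomputable def sparseRatio (c α : ℝ) (lam : ℕ → ℂ) (N : ℕ) : ℝ :=
  (((Icc 1 N ×ˢ {1, -1}).filter (fun p : ℕ × ℤ => Fund (p.2 * ((⌊α * (p.1 : ℝ) ^ c⌋₊ : ℕ) : ℤ)) ∧
      NonVanishing lam (p.2 * ((⌊α * (p.1 : ℝ) ^ c⌋₊ : ℕ) : ℤ)))).card : ℝ) /
    ((Icc 1 N ×ˢ {1, -1}).filter (fun p : ℕ × ℤ => Fund (p.2 * ((⌊α * (p.1 : ℝ) ^ c⌋₊ : ℕ) : ℤ)))).card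

/-- the absolute values of the discriminants of sign `s` -/
def G (s : ℤ) : Set ℕ := {m | Fund (s * (m : ℤ))}

/-- the absolute values of the discriminants of sign `s` with non-vanishing twist -/
def B (lam : ℕ → ℂ) (s : ℤ) : Set ℕ := {m | Fund (s * (m : ℤ)) ∧ NonVanishing lam (s * (m : ℤ))}

/-- the mean of the two signs -/
noncomputable def f (lam : ℕ → ℂ) (m : ℕ) : ℝ := (ind (B lam 1) m + ind (B lam (-1)) m) / 2

/-- the mean of the two signs -/
noncomputable def g (m : ℕ) : ℝ := (ind (G 1) m + ind (G (-1)) m) / 2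

lemma ind_B (lam : ℕ → ℂ) (s : ℤ) (m : ℕ) (d : Decidable (Fund (s * (m : ℤ)) ∧ NonVanishing lam (s * (m : ℤ)))) :
    ind (B lam s) m = @ite _ (Fund (s * (m : ℤ)) ∧ NonVanishing lam (s * (m : ℤ))) d 1 0 := by
  classical
  unfold ind
  split_ifs with h1 h2 h2
  · rfl
  · exact absurd h1 h2
  · exact absurd h2 h1
  · rfl

lemma ind_G (s : ℤ) (m : ℕ) (d : Decidable (Fund (s * (m : ℤ)))) :
    ind (G s) m = @ite _ (Fund (s * (m : ℤ))) d 1 0 := by
  classical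
  unfold ind
  split_ifs with h1 h2 h2
  · rfl
  · exact absurd h1 h2
  · exact absurd h2 h1
  · rfl

lemma not_fund_zero : ¬ Fund 0 := by
  rintro ⟨_, h | ⟨k, hk, hk4, _⟩⟩
  · exact absurd h.1 (by norm_num)
  · omega

lemma g_lower : ∃ β : ℝ, 0 < β ∧ ∃ X₀ : ℕ, ∀ X : ℕ, X₀ ≤ X → β * X ≤ ∑ m ∈ Ioc 0 X, g m := by
  classical
  refine ⟨1 / 24, by norm_num, 6, fun X hX => ?_⟩
  have h1 := card_sqf X hX
  have h2 : ((((Icc 1 X).filter (fun m => m % 4 = 3 ∧ Squarefree m)).card : ℕ) : ℝ) * (1 / 2) ≤ ∑ m ∈ Ioc 0 X, g m := by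
    rw [card_filter]
    push_cast
    rw [sum_mul, show Ioc 0 X = Icc 1 X by ext m; simp only [mem_Ioc, mem_Icc]; omega]
    apply sum_le_sum
    intro m _
    have h0 : ∀ s : ℤ, 0 ≤ ind (G s) m := by
      intro s
      unfold ind
      split_ifs <;> norm_num
    by_cases k1 : m % 4 = 3 ∧ Squarefree m
    · have k3 : m ∈ G (-1) := by
        refine ⟨by omega, Or.inl ⟨by omega, ?_⟩⟩
        rw [neg_one_mul, sqf_neg]
        exact k1.2
      have k4 : ind (G (-1)) m = 1 := by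
        unfold ind
        rw [if_pos k3]
      unfold g
      rw [if_pos k1, k4]
      linarith [h0 1]
    · rw [if_neg k1]
      unfold g
      linarith [h0 1, h0 (-1)]
  linarith

lemma ratio1 (lam : ℕ → ℂ) (X : ℕ) : ratio lam X = (∑ m ∈ Ioc 0 X, f lam m) / ∑ m ∈ Ioc 0 X, g m := by
  classical
  unfold ratio
  rw [signs_sum _ X (fun h => not_fund_zero h.1), signs_sum _ X not_fund_zero]
  have e1 : ∑ m ∈ Ioc 0 X, ((if Fund ((m : ℤ)) ∧ NonVanishing lam (m : ℤ) then (1 : ℝ) else 0) +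
      if Fund (-(m : ℤ)) ∧ NonVanishing lam (-(m : ℤ)) then 1 else 0) = 2 * ∑ m ∈ Ioc 0 X, f lam m := by
    rw [mul_sum]
    apply sum_congr rfl
    intro m _
    unfold f ind B
    simp only [Set.mem_ofPred_eq, one_mul, neg_one_mul]
    ring
  have e2 : ∑ m ∈ Ioc 0 X, ((if Fund ((m : ℤ)) then (1 : ℝ) else 0) + if Fund (-(m : ℤ)) then 1 else 0) =
      2 * ∑ m ∈ Ioc 0 X, g m := by
    rw [mul_sum]
    apply sum_congr rfl
    intro m _
    unfold g ind G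
    simp only [Set.mem_ofPred_eq, one_mul, neg_one_mul]
    ring
  rw [e1, e2, mul_div_mul_left _ _ (by norm_num)]

lemma ratio2 (c α : ℝ) (lam : ℕ → ℂ) (N : ℕ) : sparseRatio c α lam N =
    (∑ n ∈ Icc 1 N, f lam (ms α c n)) / ∑ n ∈ Icc 1 N, g (ms α c n) := by
  classical
  unfold sparseRatio
  rw [pairs_sum (fun n s => Fund (s * ((⌊α * (n : ℝ) ^ c⌋₊ : ℕ) : ℤ)) ∧
      NonVanishing lam (s * ((⌊α * (n : ℝ) ^ c⌋₊ : ℕ) : ℤ))) N,
    pairs_sum (fun n s => Fund (s * ((⌊α * (n : ℝ) ^ c⌋₊ : ℕ) : ℤ))) N]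
  have e1 : ∑ n ∈ Icc 1 N, ((if Fund (1 * ((⌊α * (n : ℝ) ^ c⌋₊ : ℕ) : ℤ)) ∧
      NonVanishing lam (1 * ((⌊α * (n : ℝ) ^ c⌋₊ : ℕ) : ℤ)) then (1 : ℝ) else 0) +
      if Fund (-1 * ((⌊α * (n : ℝ) ^ c⌋₊ : ℕ) : ℤ)) ∧
        NonVanishing lam (-1 * ((⌊α * (n : ℝ) ^ c⌋₊ : ℕ) : ℤ)) then 1 else 0) =
      2 * ∑ n ∈ Icc 1 N, f lam (ms α c n) := by
    rw [mul_sum]
    apply sum_congr rfl
    intro n _
    unfold f
    have k1 := ind_B lam 1 (ms α c n) inferInstance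
    have k2 := ind_B lam (-1) (ms α c n) inferInstance
    rw [k1, k2, mul_div_cancel₀ _ (two_ne_zero' ℝ)]
    rfl
  have e2 : ∑ n ∈ Icc 1 N, ((if Fund (1 * ((⌊α * (n : ℝ) ^ c⌋₊ : ℕ) : ℤ)) then (1 : ℝ) else 0) +
      if Fund (-1 * ((⌊α * (n : ℝ) ^ c⌋₊ : ℕ) : ℤ)) then 1 else 0) =
      2 * ∑ n ∈ Icc 1 N, g (ms α c n) := by
    rw [mul_sum]
    apply sum_congr rfl
    intro n _
    unfold g
    have k1 := ind_G 1 (ms α c n) inferInstance
    have k2 := ind_G (-1) (ms α c n) inferInstance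
    rw [k1, k2, mul_div_cancel₀ _ (two_ne_zero' ℝ)]
    rfl
  have k1 := congrArg₂ (fun x y : ℝ => x / y) e1 e2
  rw [mul_div_mul_left _ _ (by norm_num : (2 : ℝ) ≠ 0)] at k1
  rw [← k1]
  congr 1
  apply sum_congr rfl
  intro n _
  congr 1 <;> congr 1

/-- For every real `c > 1` there is `0 < κ < 1` such that for every sequence `Λ 0, Λ 1, …` of sequences of complex
numbers there is a set `E` of real numbers of Hausdorff dimension at most `1 - κ` such that for every real `α > 0`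
outside `E`:

* for every `k` and every real `ρ`: the proportion of the quadratic fields for which the twist of `Λ k` does not vanish
  at the centre, ordered by `|Δ|`, tends to `ρ` if and only if the proportion among the quadratic fields of
  discriminant `± ⌊α n ^ c⌋`, ordered by `n`, tends to `ρ`;
* hence all the former proportions tend to `1 / 2` if and only if all the latter do. -/
theorem result (c : ℝ) (hc : 1 < c) : ∃ κ : ℝ, 0 < κ ∧ κ < 1 ∧ ∀ Λ : ℕ → ℕ → ℂ,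
    ∃ E : Set ℝ, dimH E ≤ ENNReal.ofReal (1 - κ) ∧ ∀ α : ℝ, 0 < α → α ∉ E →
      (∀ (k : ℕ) (ρ : ℝ), Tendsto (ratio (Λ k)) atTop (𝓝 ρ) ↔ Tendsto (sparseRatio c α (Λ k)) atTop (𝓝 ρ)) ∧
      ((∀ k, Tendsto (ratio (Λ k)) atTop (𝓝 (1 / 2))) ↔
        ∀ k, Tendsto (sparseRatio c α (Λ k)) atTop (𝓝 (1 / 2))) := by
  obtain ⟨κ, hκ0, hκ1, H⟩ := use c hc
  refine ⟨κ, hκ0, hκ1, fun Λ => ?_⟩
  obtain ⟨E, hE, h⟩ := H (fun i _ => G (if i = 0 then 1 else -1)) (ℕ × ℤ) (fun i => B (Λ i.1) i.2)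
  refine ⟨E, hE, fun α hα hαE => ?_⟩
  obtain ⟨_, h2, h3⟩ := h α hα hαE
  have h20 : Cmp c α κ (ind (G 1)) := by simpa using h2 0 0
  have h21 : Cmp c α κ (ind (G (-1))) := by simpa using h2 1 0
  have key : ∀ (k : ℕ) (ρ : ℝ), Tendsto (ratio (Λ k)) atTop (𝓝 ρ) ↔
      Tendsto (sparseRatio c α (Λ k)) atTop (𝓝 ρ) := by
    intro k ρ
    have hC : Cmp c α κ (f (Λ k)) := Cmp.half (h3 (k, 1)) (h3 (k, -1))
    have hG : Cmp c α κ g := Cmp.half h20 h21
    have hi : ∀ s : ℤ, ∀ m, 0 ≤ ind (B (Λ k) s) m ∧ ind (B (Λ k) s) m ≤ ind (G s) m ∧ ind (G s) m ≤ 1 := by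
      intro s m
      unfold ind
      split_ifs with k1 k2
      · exact ⟨by norm_num, le_refl _, le_refl _⟩
      · exact absurd k1.1 k2
      · exact ⟨by norm_num, by norm_num, le_refl _⟩
      · exact ⟨by norm_num, le_refl _, by norm_num⟩
    have h4 := gen_iff hc hα hκ0 hκ1 (f := f (Λ k)) (g := g)
      (fun m => by
        unfold f
        linarith [(hi 1 m).1, (hi (-1) m).1])
      (fun m => by
        unfold f g
        linarith [(hi 1 m).2.1, (hi (-1) m).2.1])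
      (fun m => by
        unfold g
        linarith [(hi 1 m).2.2, (hi (-1) m).2.2]) hC hG g_lower ρ
    have e1 : ratio (Λ k) = fun X => (∑ m ∈ Ioc 0 X, f (Λ k) m) / ∑ m ∈ Ioc 0 X, g m :=
      funext fun X => ratio1 (Λ k) X
    have e2 : sparseRatio c α (Λ k) =
        fun N => (∑ n ∈ Icc 1 N, f (Λ k) (ms α c n)) / ∑ n ∈ Icc 1 N, g (ms α c n) :=
      funext fun N => ratio2 c α (Λ k) N
    rw [e1, e2]
    exact h4
  exact ⟨key, fun hG k => (key k _).1 (hG k), fun hG k => (key k _).2 (hG k)⟩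

end Pool.Agent.Results.MP_17f4cb_nt.AlongDilatedPowers
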