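import Pool.Agent.X22.EQ17
import Pool.Agent.X22.EQ18

/-!
# The normal law for the Euler products of degree two at the central point, twisted by arbitrarily thin families of quadratic characters

Nothing is used besides Mathlib in the statement.
-/

set_option autoImplicit false

namespace Pool.Agent.Results.MP_17f4cb_nt.FewDigitTwistsNormalLaw

open Finset

/-- The Euler product over the primes `p ≤ x` of `L (1 / 2, π ⊗ χ_m)`, where `lam p` is the normalised eigenvalue `α_p + 1 / α_p` of `π` at `p` and `χ_m (p)` is the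
quadratic residue symbol `(m / p)`: the product of `1 / (1 - χ_m (p) lam (p) / √p + χ_m (p) ^ 2 / p)`. -/
noncomputable def eulerProduct (lam : ℕ → ℝ) (m x : ℕ) : ℝ :=
  ∏ p ∈ (range (x + 1)).filter Nat.Prime, (1 - (jacobiSym (m : ℤ) p : ℝ) * lam p / Real.sqrt p + (jacobiSym (m : ℤ) p : ℝ) ^ 2 / p)⁻¹

/-- The expected value of the logarithm of the product: the sum of `(lam (p) ^ 2 - 2) / (2 p)` over the primes `p ≤ x`. -/
noncomputable def expected (lam : ℕ → ℝ) (x : ℕ) : ℝ := ∑ p ∈ (range (x + 1)).filter Nat.Prime, (lam p ^ 2 - 2) / 2 / p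

/-- The variance of the linear combination of the logarithms with the coefficients `u l`: the sum of `(∑_l u_l lam_l (p)) ^ 2 / p` over the primes `p ≤ x`. -/
noncomputable def variance {κ : Type} (Λ : Finset κ) (u : κ → ℝ) (lam : κ → ℕ → ℝ) (x : ℕ) : ℝ :=
  ∑ p ∈ (range (x + 1)).filter Nat.Prime, (∑ l ∈ Λ, u l * lam l p) ^ 2 / p

/-- The digit number `i` (counted from the right, beginning with `0`) of `n` in base `b`. -/
def digit (b i n : ℕ) : ℕ := n / b ^ i % b

/-- The number which arises from the number `N` with at most `K` digits in base `b`, if for every `i ∈ S`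
the digit number `i` is replaced by `f i`. -/
def change (b K N : ℕ) (f : ℕ → ℕ) (S : Finset ℕ) : ℕ :=
  ∑ i ∈ range K, (if i ∈ S then f i else digit b i N) * b ^ i

open Classical in
/-- The number of the choices of `r` of `K` positions for which the number obtained by changing the digits of `N` at the chosen positions (according to `f`) has
the property `E`. -/
noncomputable def choices (b K r N : ℕ) (f : ℕ → ℕ) (E : ℕ → Prop) : ℕ :=
  ((powersetCard r (range K)).filter (fun S => E (change b K N f S))).card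

open Pool.Agent.X22.EQ Pool.Agent.TH894.NE
open Pool.Agent.X22.ND (chi chi_abs chi_mod card_one)

private lemma jac (m p : ℕ) (hp : p.Prime) : (jacobiSym (m : ℤ) p : ℝ) = chi p m := by
  have hf : Fact p.Prime := ⟨hp⟩
  unfold Pool.Agent.X22.ND.chi
  rw [dif_pos hp, ← jacobiSym.legendreSym.to_jacobiSym]
  unfold legendreSym
  rw [Int.cast_natCast]

/-- **The normal law for twisted Euler products of degree two at the central point in thin families.** Let a base `b ≥ 2` and `U, C ≥ 0`, `ε > 0` be given. There is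
`c > 0` such that for all integers `r`, `K`, `x` with `2 r ≤ K` and `x ≤ exp (c √r)`, all integers `0 ≤ N < b ^ K` and all prescribed digits `f j`, different from the digits
number `j` of `N` in base `b`, the following holds.

Let `Λ` be a finite set of systems of numbers `lam l p` with `|lam l p| ≤ 2` (`p` prime, `l ∈ Λ`) and `u l` real with `∑ |u l| ≤ U`. Let `v` and `z` be real numbers which differ by
at most `C` from the variance (the sum of `(∑_l u_l lam_l (p)) ^ 2 / p` over `p ≤ x`) and from the expected value `∑_l u_l ∑ (lam_l (p) ^ 2 - 2) / (2 p)`, and assume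
`v ≥ 1 / c`. If one replaces the digits of `N` at `r` of the `K` positions, then the proportion of the choices for which the Euler products `P_l` over `p ≤ x` of
`L (1 / 2, π_l ⊗ χ_m)`, `m` the number obtained, satisfy `∑_l u_l log P_l ≤ z + t √v` differs from the value `Φ (t)` of the standard normal distribution function by at most `ε`,
for all real `t`. The products are positive. -/
theorem result (b : ℕ) (hb : 2 ≤ b) (U C ε : ℝ) (hU : 0 ≤ U) (hC : 0 ≤ C) (hε : 0 < ε) :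
    ∃ c : ℝ, 0 < c ∧ ∀ K r x : ℕ, 2 * r ≤ K → (x : ℝ) ≤ Real.exp (c * Real.sqrt r) →
    ∀ N : ℕ, N < b ^ K → ∀ f : ℕ → ℕ, (∀ j, f j < b ∧ f j ≠ digit b j N) →
    ∀ (κ : Type) (Λ : Finset κ) (u : κ → ℝ) (lam : κ → ℕ → ℝ), ∑ l ∈ Λ, |u l| ≤ U → (∀ l ∈ Λ, ∀ p : ℕ, p.Prime → |lam l p| ≤ 2) →
    (∀ m : ℕ, ∀ l ∈ Λ, 0 < eulerProduct (lam l) m x) ∧
    ∀ v z : ℝ, |v - variance Λ u lam x| ≤ C → |z - ∑ l ∈ Λ, u l * expected (lam l) x| ≤ C → 1 / c ≤ v → ∀ t : ℝ,
      |(choices b K r N f (fun m => ∑ l ∈ Λ, u l * Real.log (eulerProduct (lam l) m x) ≤ z + t * Real.sqrt v) : ℝ) -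
        (ProbabilityTheory.gaussianReal 0 1).real (Set.Iic t) * (K.choose r : ℝ)| ≤ ε * (K.choose r : ℝ) := by
  classical
  obtain ⟨y, hy⟩ : ∃ y : ℕ, y = b * b + 64 := ⟨_, rfl⟩
  have hy64 : 64 ≤ y := by omega
  obtain ⟨A, hA⟩ : ∃ A : ℝ, A = 2 * U + 1 := ⟨_, rfl⟩
  obtain ⟨B, hB⟩ : ∃ B : ℝ, B = 58 * U + 3600 * U ^ 2 := ⟨_, rfl⟩
  obtain ⟨C₂, hC₂⟩ : ∃ C₂ : ℝ, C₂ = C + (3 * U + 4 * U ^ 2) * (y + 1) := ⟨_, rfl⟩
  have hC₂0 : 0 ≤ C₂ := by rw [hC₂]; positivity
  obtain ⟨c₁, hc₁, key⟩ := clt_gen b 1 hb le_rfl A B C₂ ε (by rw [hA]; linarith) (by rw [hB]; positivity) hC₂0 hε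
  obtain ⟨D, hD⟩ : ∃ D : ℝ, D = C + 4 * U ^ 2 * (y + 2) + 1 := ⟨_, rfl⟩
  have hD0 : 0 < D := by rw [hD]; positivity
  obtain ⟨c, hc⟩ : ∃ c : ℝ, c = min c₁ (min 1 (1 / D)) := ⟨_, rfl⟩
  have hc0 : 0 < c := by rw [hc]; exact lt_min hc₁ (lt_min one_pos (by positivity))
  have hca : c ≤ c₁ := by rw [hc]; exact min_le_left _ _
  have hcb : c ≤ 1 := by rw [hc]; exact (min_le_right _ _).trans (min_le_left _ _)
  have hcd : c ≤ 1 / D := by rw [hc]; exact (min_le_right _ _).trans (min_le_right _ _)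
  refine ⟨c, hc0, fun K r x hrK hxr N hN f hff κ Λ u lam hu hlam => ?_⟩
  have hEt : ∀ (m : ℕ), ∀ l ∈ Λ, ∀ p ∈ (range (x + 1)).filter Nat.Prime,
      1 - (jacobiSym (m : ℤ) p : ℝ) * lam l p / Real.sqrt p + (jacobiSym (m : ℤ) p : ℝ) ^ 2 / p = tw (lam l p) (chi p m) p ∧ 0 < tw (lam l p) (chi p m) p := by
    intro m l hl p hp
    have hp' := (mem_filter.1 hp).2
    refine ⟨?_, (tw_pos (lam l p) (chi p m) p hp'.two_le (hlam l hl p hp') (chi_abs p m)).1⟩
    rw [jac m p hp']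
    rfl
  have hpos : ∀ m : ℕ, ∀ l ∈ Λ, 0 < eulerProduct (lam l) m x := by
    intro m l hl
    unfold eulerProduct
    refine prod_pos fun p hp => ?_
    obtain ⟨h1, h2⟩ := hEt m l hl p hp
    rw [h1]
    exact inv_pos.2 h2
  refine ⟨hpos, fun v z hv hz hcv t => ?_⟩
  obtain ⟨P, hP⟩ : ∃ P, P = (range (x + 1)).filter Nat.Prime := ⟨_, rfl⟩
  -- the sum of the logarithms
  have hlog : ∀ m : ℕ, ∑ l ∈ Λ, u l * Real.log (eulerProduct (lam l) m x) = ∑ p ∈ P, hf Λ u (fun l => lam l p) p (chi p m) := by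
    intro m
    have h1 : ∀ l ∈ Λ, u l * Real.log (eulerProduct (lam l) m x) = ∑ p ∈ P, u l * -Real.log (tw (lam l p) (chi p m) p) := by
      intro l hl
      unfold eulerProduct
      rw [← mul_sum, hP, Real.log_prod (fun p hp => by
        obtain ⟨h1, h2⟩ := hEt m l hl p hp
        rw [h1]
        exact (inv_pos.2 h2).ne')]
      congr 1
      refine sum_congr rfl fun p hp => ?_
      rw [(hEt m l hl p hp).1, Real.log_inv]
    rw [sum_congr rfl h1, sum_comm]
    rfl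
  have hexp : ∑ l ∈ Λ, u l * expected (lam l) x = ∑ p ∈ P, (∑ l ∈ Λ, u l * ((lam l p ^ 2 - 2) / 2)) / (p : ℝ) := by
    unfold expected
    simp only [mul_sum, sum_div]
    rw [sum_comm, ← hP]
    refine sum_congr rfl fun p _ => sum_congr rfl fun l _ => ?_
    ring
  have hWQ : ∀ p ∈ P, |∑ l ∈ Λ, u l * lam l p| ≤ 2 * U ∧ |∑ l ∈ Λ, u l * ((lam l p ^ 2 - 2) / 2)| ≤ U := by
    intro p hp
    rw [hP] at hp
    exact WQ_size Λ u (fun l => lam l p) U hu (fun l hl => hlam l hl p (mem_filter.1 hp).2)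
  have hW2 : ∀ p ∈ P, 0 ≤ (∑ l ∈ Λ, u l * lam l p) ^ 2 / (p : ℝ) ∧ (∑ l ∈ Λ, u l * lam l p) ^ 2 / (p : ℝ) ≤ 4 * U ^ 2 := by
    intro p hp
    have hp1 : (1 : ℝ) ≤ p := by
      rw [hP] at hp
      exact_mod_cast (mem_filter.1 hp).2.one_lt.le
    refine ⟨by positivity, (div_le_self (sq_nonneg _) hp1).trans ?_⟩
    rw [← sq_abs]
    calc |∑ l ∈ Λ, u l * lam l p| ^ 2 ≤ (2 * U) ^ 2 := pow_le_pow_left₀ (abs_nonneg _) (hWQ p hp).1 2
      _ = _ := by ring
  -- the size of `x`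
  have hxy : y + 1 < x + 1 := by
    by_contra hcon
    have h1 : variance Λ u lam x ≤ 4 * U ^ 2 * (x + 1) := by
      unfold variance
      rw [← hP]
      refine (sum_le_sum fun p hp => (hW2 p hp).2).trans ?_
      rw [sum_const, nsmul_eq_mul, mul_comm]
      apply mul_le_mul_of_nonneg_left _ (by positivity)
      have h2 : P.card ≤ x + 1 := by
        rw [hP]
        exact (card_filter_le _ _).trans (by rw [card_range])
      exact_mod_cast h2
    have h2 : (x : ℝ) ≤ y := by exact_mod_cast (by omega : x ≤ y)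
    have h3 : D ≤ v := by
      refine le_trans ?_ hcv
      rw [le_div_iff₀ hc0]
      calc D * c ≤ D * (1 / D) := mul_le_mul_of_nonneg_left hcd hD0.le
        _ = 1 := by field_simp
    have h4 := (abs_le.1 hv).2
    rw [hD] at h3
    have h5 : 4 * U ^ 2 * ((x : ℝ) + 1) ≤ 4 * U ^ 2 * (y + 2) := by
      apply mul_le_mul_of_nonneg_left _ (by positivity)
      linarith
    linarith
  have hx0 : 0 < x := by omega
  obtain ⟨P₁, hP₁⟩ : ∃ P₁, P₁ = (range (y + 1)).filter Nat.Prime := ⟨_, rfl⟩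
  have hP2 : P = P₁ ∪ pin y x := by
    rw [hP, hP₁]
    ext p
    rw [mem_union, mem_filter, mem_filter, mem_pin, mem_range, mem_range]
    constructor
    · rintro ⟨h3, h4⟩
      by_cases h5 : p < y + 1
      · exact Or.inl ⟨h5, h4⟩
      · exact Or.inr ⟨⟨by omega, by omega⟩, h4⟩
    · rintro (⟨h3, h4⟩ | ⟨⟨h3, h5⟩, h4⟩)
      · exact ⟨by omega, h4⟩
      · exact ⟨by omega, h4⟩
  have hdis : Disjoint P₁ (pin y x) := by
    rw [disjoint_left, hP₁]
    intro p hp hp'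
    rw [mem_filter, mem_range] at hp
    rw [mem_pin] at hp'
    omega
  have hsub : ∀ p ∈ P₁, p ∈ P := fun p hp => by rw [hP2]; exact mem_union_left _ hp
  have hcardP₁ : (P₁.card : ℝ) ≤ y + 1 := by
    have : P₁.card ≤ y + 1 := by
      rw [hP₁]
      exact (card_filter_le _ _).trans (by rw [card_range])
    exact_mod_cast this
  have hsmall : ∀ (g : ℕ → ℝ) (R : ℝ), 0 ≤ R → (∀ p ∈ P₁, |g p| ≤ R) → |∑ p ∈ P, g p - ∑ p ∈ pin y x, g p| ≤ R * (y + 1) := by
    intro g R hR hg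
    rw [hP2, sum_union hdis, add_sub_cancel_right]
    refine (abs_sum_le_sum_abs _ _).trans ((sum_le_sum hg).trans ?_)
    rw [sum_const, nsmul_eq_mul, mul_comm]
    exact mul_le_mul_of_nonneg_left hcardP₁ hR
  obtain ⟨vp, hvp⟩ : ∃ vp : ℕ → ℝ, vp = fun p => if p.Prime then (∑ l ∈ Λ, u l * lam l p) ^ 2 else 0 := ⟨_, rfl⟩
  obtain ⟨μp, hμp⟩ : ∃ μp : ℕ → ℝ, μp = fun p : ℕ => (∑ l ∈ Λ, u l * ((lam l p ^ 2 - 2) / 2)) / (p : ℝ) := ⟨_, rfl⟩
  obtain ⟨G, hG⟩ : ∃ G : ℕ → (Fin 1 → ℕ) → ℝ, G = fun p m => hf Λ u (fun l => lam l p) p (chi p (m 0)) := ⟨_, rfl⟩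
  have hWQ' : ∀ p : ℕ, p.Prime → |∑ l ∈ Λ, u l * lam l p| ≤ 2 * U ∧ |∑ l ∈ Λ, u l * ((lam l p ^ 2 - 2) / 2)| ≤ U := by
    intro p hp
    exact WQ_size Λ u (fun l => lam l p) U hu (fun l hl => hlam l hl p hp)
  have hvp1 : ∀ p, 0 ≤ vp p ∧ vp p ≤ A ^ 2 := by
    intro p
    rw [hvp]
    show 0 ≤ (if p.Prime then (∑ l ∈ Λ, u l * lam l p) ^ 2 else 0) ∧ (if p.Prime then (∑ l ∈ Λ, u l * lam l p) ^ 2 else 0) ≤ A ^ 2
    split_ifs with h
    · refine ⟨sq_nonneg _, ?_⟩
      rw [← sq_abs]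
      exact pow_le_pow_left₀ (abs_nonneg _) ((hWQ' p h).1.trans (by rw [hA]; linarith)) 2
    · exact ⟨le_rfl, by positivity⟩
  have hvpp : ∀ p : ℕ, p.Prime → vp p = (∑ l ∈ Λ, u l * lam l p) ^ 2 := by
    intro p hp
    rw [hvp]
    exact if_pos hp
  have hBU : 58 * U ≤ B := by rw [hB]; nlinarith [sq_nonneg U]
  have hBU2 : 3600 * U ^ 2 ≤ B := by rw [hB]; linarith
  have hv' : |v - ∑ p ∈ pin y x, vp p / p| ≤ C₂ := by
    have h1 := hsmall (fun p => (∑ l ∈ Λ, u l * lam l p) ^ 2 / (p : ℝ)) (4 * U ^ 2) (by positivity) (fun p hp => by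
      rw [abs_of_nonneg (hW2 p (hsub p hp)).1]
      exact (hW2 p (hsub p hp)).2)
    have h2 : ∑ p ∈ pin y x, vp p / (p : ℝ) = ∑ p ∈ pin y x, (∑ l ∈ Λ, u l * lam l p) ^ 2 / (p : ℝ) :=
      sum_congr rfl fun p hp => by rw [hvpp p (mem_pin.1 hp).2]
    have h3 : variance Λ u lam x = ∑ p ∈ P, (∑ l ∈ Λ, u l * lam l p) ^ 2 / (p : ℝ) := by
      unfold variance
      rw [hP]
    rw [h3] at hv
    rw [h2]
    have h4 : v - ∑ p ∈ pin y x, (∑ l ∈ Λ, u l * lam l p) ^ 2 / (p : ℝ) = (v - ∑ p ∈ P, (∑ l ∈ Λ, u l * lam l p) ^ 2 / (p : ℝ)) +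
        (∑ p ∈ P, (∑ l ∈ Λ, u l * lam l p) ^ 2 / (p : ℝ) - ∑ p ∈ pin y x, (∑ l ∈ Λ, u l * lam l p) ^ 2 / (p : ℝ)) := by ring
    rw [h4]
    refine (abs_add_le _ _).trans ?_
    rw [hC₂]
    have h5 : 0 ≤ 3 * U * ((y : ℝ) + 1) := by positivity
    linarith
  have hz' : |z - ∑ p ∈ pin y x, μp p| ≤ C₂ := by
    have h1 := hsmall (fun p => (∑ l ∈ Λ, u l * ((lam l p ^ 2 - 2) / 2)) / (p : ℝ)) U hU (fun p hp => by
      have hp1 : (1 : ℝ) ≤ p := by
        have := hsub p hp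
        rw [hP] at this
        exact_mod_cast (mem_filter.1 this).2.one_lt.le
      rw [abs_div, abs_of_pos (by linarith : (0 : ℝ) < p)]
      exact (div_le_self (abs_nonneg _) hp1).trans (hWQ p (hsub p hp)).2)
    rw [hexp] at hz
    rw [hμp]
    have h4 : z - ∑ p ∈ pin y x, (∑ l ∈ Λ, u l * ((lam l p ^ 2 - 2) / 2)) / (p : ℝ) = (z - ∑ p ∈ P, (∑ l ∈ Λ, u l * ((lam l p ^ 2 - 2) / 2)) / (p : ℝ)) +
        (∑ p ∈ P, (∑ l ∈ Λ, u l * ((lam l p ^ 2 - 2) / 2)) / (p : ℝ) - ∑ p ∈ pin y x, (∑ l ∈ Λ, u l * ((lam l p ^ 2 - 2) / 2)) / (p : ℝ)) := by ring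
    rw [h4]
    refine (abs_add_le _ _).trans ?_
    rw [hC₂]
    have h5 : 0 ≤ (2 * U + 4 * U ^ 2) * ((y : ℝ) + 1) := by positivity
    linarith
  have hZ : ∀ m : Fin 1 → ℕ, |∑ l ∈ Λ, u l * Real.log (eulerProduct (lam l) (m 0) x) - ∑ p ∈ pin y x, G p m| ≤ C₂ := by
    intro m
    rw [hlog (m 0), hG]
    have h1 := hsmall (fun p => hf Λ u (fun l => lam l p) p (chi p (m 0))) (3 * U) (by positivity) (fun p hp => by
      have hpp : p.Prime := by
        have := hsub p hp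
        rw [hP] at this
        exact (mem_filter.1 this).2
      exact hf_size Λ u (fun l => lam l p) p U hu (fun l hl => hlam l hl p hpp) hpp.two_le _ (chi_abs p _))
    refine h1.trans ?_
    rw [hC₂]
    have h5 : 0 ≤ 4 * U ^ 2 * ((y : ℝ) + 1) := by positivity
    linarith
  have hloc := fun (p : ℕ) (hp : p.Prime) (hyp : y < p) => hf_local Λ u (fun l => lam l p) p U hu (fun l hl => hlam l hl p hp) hp (by omega)
  have hU2 : 0 ≤ U ^ 2 := sq_nonneg U
  have h := key (fun _ => r) (fun _ => K) y x (fun _ => hrK) (by omega) (fun _ => by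
      have h1 : Real.log x ≤ c * Real.sqrt r := by
        rw [Real.log_le_iff_le_exp (by exact_mod_cast hx0)]
        exact hxr
      have h2 : 0 ≤ Real.log x := Real.log_nonneg (by exact_mod_cast hx0)
      calc Real.log x ^ 2 ≤ (c * Real.sqrt r) ^ 2 := pow_le_pow_left₀ h2 h1 2
        _ = (c * c) * r := by rw [mul_pow, Real.sq_sqrt (Nat.cast_nonneg _)]; ring
        _ ≤ c₁ * r := by
            apply mul_le_mul_of_nonneg_right _ (Nat.cast_nonneg _)
            nlinarith) (fun _ => N) (fun _ => hN) (fun _ => f) (fun _ => hff) μp vp hvp1 v hv' ((one_div_le_one_div_of_le hc0 hca).trans hcv) z hz' G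
    (fun p hp hyp m => by
      rw [hG]
      show hf Λ u (fun l => lam l p) p (chi p (m 0)) = hf Λ u (fun l => lam l p) p (chi p (m 0 % p))
      rw [chi_mod])
    (fun p hp hyp m => by
      rw [hG, hvpp p hp, Real.sqrt_sq_eq_abs]
      refine ((hloc p hp hyp).1 (m 0)).trans ?_
      have hp0 : (0 : ℝ) < p := by exact_mod_cast hp.pos
      have h1 : |∑ l ∈ Λ, u l * lam l p| / Real.sqrt p ≤ A * |∑ l ∈ Λ, u l * lam l p| / Real.sqrt p := by
        apply div_le_div_of_nonneg_right _ (Real.sqrt_nonneg _)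
        have : 1 * |∑ l ∈ Λ, u l * lam l p| ≤ A * |∑ l ∈ Λ, u l * lam l p| := mul_le_mul_of_nonneg_right (by rw [hA]; linarith) (abs_nonneg _)
        linarith
      have h2 : 58 * U / (p : ℝ) ≤ B / p := div_le_div_of_nonneg_right hBU hp0.le
      linarith)
    (fun p hp hyp => by
      rw [hG, hμp]
      refine ((hloc p hp hyp).2.1).trans ?_
      exact div_le_div_of_nonneg_right hBU (by positivity))
    (fun p hp hyp => by
      rw [hμp]
      have hp0 : (0 : ℝ) < p := by exact_mod_cast hp.pos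
      show |(∑ l ∈ Λ, u l * ((lam l p ^ 2 - 2) / 2)) / (p : ℝ)| ≤ B / p
      rw [abs_div, abs_of_pos hp0]
      apply div_le_div_of_nonneg_right _ hp0.le
      linarith [(hWQ' p hp).2])
    (fun p hp hyp => by
      rw [hG, hvpp p hp]
      refine ((hloc p hp hyp).2.2).trans ?_
      exact div_le_div_of_nonneg_right hBU2 (by positivity))
    (fun m => ∑ l ∈ Λ, u l * Real.log (eulerProduct (lam l) (m 0) x)) hZ t
  rw [Fin.prod_univ_one] at h
  have hv0 : 0 < v := lt_of_lt_of_le (by positivity) hcv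
  have hcount : (choices b K r N f (fun m => ∑ l ∈ Λ, u l * Real.log (eulerProduct (lam l) m x) ≤ z + t * Real.sqrt v) : ℕ) =
      ((Fintype.piFinset (fun _ : Fin 1 => powersetCard r (range K))).filter
      (fun S => (∑ l ∈ Λ, u l * Real.log (eulerProduct (lam l) (Pool.Agent.TH894.SM.change b K N f (S 0)) x) - z) / Real.sqrt v ≤ t)).card := by
    have h1 := card_one b K r N f (fun m => ¬ (∑ l ∈ Λ, u l * Real.log (eulerProduct (lam l) m x) ≤ z + t * Real.sqrt v))
    simp only [not_not] at h1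
    unfold choices
    refine Eq.trans ?_ (h1.trans ?_)
    · rfl
    · congr 1
      apply filter_congr
      intro S _
      rw [div_le_iff₀ (Real.sqrt_pos.2 hv0)]
      constructor <;> intro h <;> linarith
  rw [hcount]
  exact h

end Pool.Agent.Results.MP_17f4cb_nt.FewDigitTwistsNormalLaw
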