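import Pool.Agent.X291.MF.Maass
import Pool.Agent.X291.MF.TwL

/-!
# Quadratic twists of odd Hecke–Maass forms of level one

For a Hecke–Maass cusp form `f` for `SL₂(ℤ)` with Hecke eigenvalues `a p`, the cuspidal
representation `π'` of `PGL₂(𝔸)` generated by `f` is unramified at every prime, and for a quadratic
field `E` with character `χ` (a primitive quadratic Dirichlet character of conductor `|Δ_E|`) the
`L`-function `L(s, π' ⊗ η_E)` is the analytic continuation of the Euler product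
`∏_p (1 - a p χ(p) p^(-s) + χ(p)² p^(-2s))⁻¹`.

We prove that odd Hecke–Maass forms exist and that for each of them *all* these central values
vanish, so the proportion of nonvanishing quadratic twists is `0` and not `1/2`.
-/

set_option autoImplicit false

open UpperHalfPlane Filter Topology
open Pool.Agent.X291.MF

namespace Pool.Agent.Results.MP_17f4cb_nt.OddMaassTwists

noncomputable section

/-- the character `p.2` is the character of a quadratic field `E` with `|Δ_E| = p.1`, i.e. it is a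
primitive quadratic Dirichlet character modulo `p.1 > 1` -/
def IsQuadraticFieldCharacter (p : Σ N : ℕ, DirichletCharacter ℂ N) : Prop :=
  1 < p.1 ∧ p.2.IsPrimitive ∧ MulChar.IsQuadratic p.2

/-- `N(x)`: the number of quadratic fields `E` with `|Δ_E| < x` -/
def fieldCount (x : ℝ) : ℕ :=
  Nat.card {p : Σ N : ℕ, DirichletCharacter ℂ N // IsQuadraticFieldCharacter p ∧ (p.1 : ℝ) < x}

/-- the number of quadratic fields `E` with `|Δ_E| < x` and `L(1/2, π' ⊗ η_E) ≠ 0`, for `π'` with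
Hecke eigenvalues `a` -/
def nonvanishingCount (a : ℕ → ℂ) (x : ℝ) : ℕ :=
  Nat.card {p : Σ N : ℕ, DirichletCharacter ℂ N // (IsQuadraticFieldCharacter p ∧ (p.1 : ℝ) < x) ∧
    ∃ L : ℂ → ℂ, IsTwistedLFunction a p.2 L ∧ L (1 / 2) ≠ 0}

lemma finite_fields (x : ℝ) :
    Finite {p : Σ N : ℕ, DirichletCharacter ℂ N // IsQuadraticFieldCharacter p ∧ (p.1 : ℝ) < x} := by
  have h1 : ({p : Σ N : ℕ, DirichletCharacter ℂ N | IsQuadraticFieldCharacter p ∧ (p.1 : ℝ) < x}).Finite := by
    have h2 : ({N : ℕ | 1 < N ∧ (N : ℝ) < x}).Finite := by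
      refine (Set.finite_lt_nat (⌈x⌉₊)).subset fun N hN => ?_
      exact Nat.lt_ceil.2 hN.2
    have h3 : (⋃ N ∈ {N : ℕ | 1 < N ∧ (N : ℝ) < x},
        (fun χ : DirichletCharacter ℂ N => (⟨N, χ⟩ : Σ N : ℕ, DirichletCharacter ℂ N)) '' Set.univ).Finite := by
      refine h2.biUnion fun N hN => ?_
      have : NeZero N := ⟨by have := hN.1; omega⟩
      exact (Set.finite_univ).image _
    refine h3.subset fun p hp => ?_
    rw [Set.mem_iUnion₂]
    exact ⟨p.1, ⟨hp.1.1, hp.2⟩, p.2, Set.mem_univ _, rfl⟩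
  exact h1.to_subtype

/-- the quadratic character modulo an odd prime -/
lemma quad_prime (q : ℕ) (hq : q.Prime) (hq2 : q ≠ 2) :
    ∃ χ : DirichletCharacter ℂ q, IsQuadraticFieldCharacter ⟨q, χ⟩ := by
  have : Fact q.Prime := ⟨hq⟩
  have hinj : Function.Injective (Int.castRingHom ℂ) := by
    intro m n h
    simpa using h
  have h1 : quadraticChar (ZMod q) ≠ 1 := quadraticChar_ne_one (by rw [ZMod.ringChar_zmod_n]; exact hq2)
  set χ : DirichletCharacter ℂ q := (quadraticChar (ZMod q)).ringHomComp (Int.castRingHom ℂ) with hχ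
  have h2 : χ ≠ 1 := (MulChar.ringHomComp_ne_one_iff hinj).2 h1
  have h3 : MulChar.IsQuadratic χ := (quadraticChar_isQuadratic (ZMod q)).comp _
  refine ⟨χ, hq.one_lt, ?_, h3⟩
  show DirichletCharacter.conductor χ = q
  rcases (Nat.dvd_prime hq).1 (DirichletCharacter.conductor_dvd_level χ) with h | h
  · exact absurd (DirichletCharacter.eq_one_iff_conductor_eq_one.2 h) h2
  · exact h

/-- `N(x) → ∞` -/
lemma tendsto_fieldCount : Tendsto fieldCount atTop atTop := by
  rw [tendsto_atTop_atTop]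
  intro M
  have hinf : ({q : ℕ | q.Prime} \ {2}).Infinite := Nat.infinite_setOfPred_prime.sdiff (Set.finite_singleton 2)
  obtain ⟨T, hT, hTc⟩ := hinf.exists_subset_card_eq M
  refine ⟨(T.sup id : ℕ) + 1, fun x hx => ?_⟩
  have := finite_fields x
  have hq : ∀ q : T, ∃ χ : DirichletCharacter ℂ (q : ℕ), IsQuadraticFieldCharacter ⟨q, χ⟩ := by
    intro q
    have := hT q.2
    exact quad_prime q this.1 (by simpa using this.2)
  choose χ hχ using hq
  have hlt : ∀ q : T, ((q : ℕ) : ℝ) < x := by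
    intro q
    have h1 : (q : ℕ) ≤ T.sup id := Finset.le_sup (f := id) q.2
    have h2 : ((q : ℕ) : ℝ) ≤ (T.sup id : ℕ) := by exact_mod_cast h1
    linarith
  have hcard : Nat.card T ≤ fieldCount x := by
    refine Nat.card_le_card_of_injective
      (fun q : T => (⟨⟨q, χ q⟩, hχ q, hlt q⟩ :
        {p : Σ N : ℕ, DirichletCharacter ℂ N // IsQuadraticFieldCharacter p ∧ (p.1 : ℝ) < x})) ?_
    intro q q' h
    have h1 := congrArg (fun z => z.1.1) h
    exact Subtype.ext h1
  have : Nat.card T = M := by rw [Nat.card_eq_fintype_card, Fintype.card_coe, hTc]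
  omega

/-- **Main theorem.** -/
theorem result :
    Tendsto fieldCount atTop atTop ∧
    (∃ (f : ℍ → ℂ) (lam : ℂ) (a : ℕ → ℂ), IsHeckeMaassForm f lam a ∧ IsOddForm f) ∧
    ∀ (f : ℍ → ℂ) (lam : ℂ) (a : ℕ → ℂ), IsHeckeMaassForm f lam a → IsOddForm f →
      (∀ (N : ℕ) (χ : DirichletCharacter ℂ N), IsQuadraticFieldCharacter ⟨N, χ⟩ →
        (∃! L : ℂ → ℂ, IsTwistedLFunction a χ L) ∧
          ∀ L : ℂ → ℂ, IsTwistedLFunction a χ L → L (1 / 2) = 0) ∧
      Tendsto (fun x => (nonvanishingCount a x : ℝ) / fieldCount x) atTop (𝓝 0) ∧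
      ¬ Tendsto (fun x => (nonvanishingCount a x : ℝ) / fieldCount x) atTop (𝓝 (1 / 2)) := by
  refine ⟨tendsto_fieldCount, exists_form, fun f lam a hf hodd => ?_⟩
  have key : ∀ (N : ℕ) (χ : DirichletCharacter ℂ N), IsQuadraticFieldCharacter ⟨N, χ⟩ →
      (∃! L : ℂ → ℂ, IsTwistedLFunction a χ L) ∧
        ∀ L : ℂ → ℂ, IsTwistedLFunction a χ L → L (1 / 2) = 0 := by
    intro N χ hχ
    have : NeZero N := ⟨by have : 1 < N := hχ.1; omega⟩
    obtain ⟨L, hL, hL0⟩ := twist_main hf hodd (χ := χ) ⟨hχ.2.1, hχ.2.2⟩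
    refine ⟨⟨L, hL, fun L' hL' => hL'.unique hL⟩, fun L' hL' => ?_⟩
    rw [hL'.unique hL]; exact hL0
  have h0 : ∀ x, nonvanishingCount a x = 0 := by
    intro x
    unfold nonvanishingCount
    have : IsEmpty {p : Σ N : ℕ, DirichletCharacter ℂ N // (IsQuadraticFieldCharacter p ∧ (p.1 : ℝ) < x) ∧
      ∃ L : ℂ → ℂ, IsTwistedLFunction a p.2 L ∧ L (1 / 2) ≠ 0} := by
      refine ⟨?_⟩
      rintro ⟨⟨N, χ⟩, ⟨h1, _⟩, L, hL, hL0⟩
      exact hL0 ((key N χ h1).2 L hL)
    exact Nat.card_of_isEmpty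
  have hlim : Tendsto (fun x => (nonvanishingCount a x : ℝ) / fieldCount x) atTop (𝓝 0) := by
    simp only [h0, Nat.cast_zero, zero_div]
    exact tendsto_const_nhds
  refine ⟨key, hlim, fun h => ?_⟩
  have := tendsto_nhds_unique hlim h
  norm_num at this

end

end Pool.Agent.Results.MP_17f4cb_nt.OddMaassTwists
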